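import Pool.Agent.Helper26.AL.TLM

/-! Project AL: packet DAS. -/

set_option autoImplicit false

namespace Pool.Agent.Helper50.AL

open Finset Filter Topology Pool.Agent.Helper26.AF Pool.Agent.Helper26.AL

theorem split_sum (f : ℕ → ℝ) (r : ℕ) (hr : 1 ≤ r) :
    ∑ i ∈ range (r + 1), f i = f 0 + ∑ i ∈ Ico 1 r, f i + f r := by
  rw [sum_range_succ, range_eq_Ico, sum_eq_sum_Ico_succ_bot hr]

theorem dd_zero (hEEQ : StmtEEQ) : dd 0 = 1 := by
  unfold dd
  rw [PowerSeries.coeff_zero_eq_constantCoeff_apply, PowerSeries.constantCoeff_inv,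
    ← PowerSeries.coeff_zero_eq_constantCoeff_apply, PowerSeries.coeff_mk, hEEQ.2.2.1]
  norm_num

theorem dd_rec (hEEQ : StmtEEQ) (r : ℕ) (hr : 1 ≤ r) :
    dd r = - ee r - ∑ i ∈ Ico 1 r, ee i * dd (r - i) := by
  have h1 : PowerSeries.mk ee * (PowerSeries.mk ee)⁻¹ = 1 := by
    apply PowerSeries.mul_inv_cancel
    rw [← PowerSeries.coeff_zero_eq_constantCoeff_apply, PowerSeries.coeff_mk, hEEQ.2.2.1]
    norm_num
  have h2 := congrArg (PowerSeries.coeff r) h1
  rw [PowerSeries.coeff_mul, PowerSeries.coeff_one, if_neg (by omega)] at h2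
  have h3 : ∑ p ∈ antidiagonal r, (PowerSeries.coeff p.1) (PowerSeries.mk ee) *
      (PowerSeries.coeff p.2) (PowerSeries.mk ee)⁻¹ = ∑ i ∈ range (r + 1), ee i * dd (r - i) := by
    rw [Finset.Nat.sum_antidiagonal_eq_sum_range_succ (fun i j => (PowerSeries.coeff i)
      (PowerSeries.mk ee) * (PowerSeries.coeff j) (PowerSeries.mk ee)⁻¹) r]
    refine sum_congr rfl fun i _ => ?_
    rw [PowerSeries.coeff_mk]
    rfl
  rw [h3, split_sum _ r hr, hEEQ.2.2.1, Nat.sub_zero, Nat.sub_self, dd_zero hEEQ] at h2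
  linarith

theorem sg_fin_zero (H : SimpleGraph (Fin 0)) : H = ⊥ := by
  ext x y
  exact x.elim0

theorem co_zero_pos (hCXN : StmtCXN) (j : ℕ) (hj : 1 ≤ j) : co none j 0 = 0 := by
  unfold co
  have : IsEmpty {G : SimpleGraph (Fin j) // CXG G ∧ ne G = j + 0 ∧ EO none G} := by
    refine ⟨fun G => ?_⟩
    obtain ⟨G, h1, h2, -⟩ := G
    have e1 := (hCXN _ G h1).2.1 ⟨⟨0, by omega⟩⟩
    rw [Fintype.card_fin] at e1
    omega
  exact Nat.card_of_isEmpty

theorem co_zero_zero : co none 0 0 = 1 := by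
  unfold co
  rw [Nat.card_eq_one_iff_unique]
  refine ⟨⟨fun a b => Subtype.ext ?_⟩, ⟨⟨⊥, cxg_fin_zero _, ne_fin_zero _, ?_⟩⟩⟩
  · rw [sg_fin_zero a.1, sg_fin_zero b.1]
  · intro g hg
    exact absurd hg (by simp)

theorem ds_zero_pos (hCXN : StmtCXN) (j : ℕ) (hj : 1 ≤ j) : ds j 0 = 0 := by
  classical
  unfold ds
  refine sum_eq_zero fun G _ => ?_
  rw [if_neg]
  rintro ⟨h1, h2⟩
  have e1 := (hCXN _ G h1).2.1 ⟨⟨0, by omega⟩⟩
  rw [Fintype.card_fin] at e1
  omega

theorem ds_zero_zero : ds 0 0 = 1 := by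
  classical
  unfold ds
  rw [Fintype.sum_eq_single (⊥ : SimpleGraph (Fin 0)) (fun G hG => absurd (sg_fin_zero G) hG),
    if_pos ⟨cxg_fin_zero _, ne_fin_zero _⟩, cc_fin_zero, pow_zero]

/-- the recursion. -/
theorem ds_rec (hINV : StmtINV) (hCXN : StmtCXN) (k r : ℕ) (hr : 1 ≤ r) :
    ds k r = - (co none k r : ℝ) - ∑ i ∈ Ico 1 r, ∑ m ∈ range (k + 1),
      (k.choose m : ℝ) * (co none m i : ℝ) * ds (k - m) (r - i) := by
  have h1 := hINV k r
  rw [if_neg (by omega)] at h1
  have h2 : ∑ j ∈ range (k + 1), (k.choose j : ℝ) *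
      ∑ i ∈ range (r + 1), (co none j i : ℝ) * ds (k - j) (r - i) =
      ∑ i ∈ range (r + 1), ∑ j ∈ range (k + 1),
        (k.choose j : ℝ) * (co none j i : ℝ) * ds (k - j) (r - i) := by
    rw [sum_comm]
    refine sum_congr rfl fun j _ => ?_
    rw [mul_sum]
    refine sum_congr rfl fun i _ => ?_
    ring
  rw [h2, split_sum _ r hr] at h1
  have h3 : ∑ j ∈ range (k + 1), (k.choose j : ℝ) * (co none j 0 : ℝ) * ds (k - j) (r - 0) =
      ds k r := by
    rw [sum_eq_single 0]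
    · rw [co_zero_zero]
      simp
    · intro j _ hj
      rw [co_zero_pos hCXN j (Nat.pos_of_ne_zero hj)]
      simp
    · intro h
      exact absurd (mem_range.2 (Nat.succ_pos k)) h
  have h4 : ∑ j ∈ range (k + 1), (k.choose j : ℝ) * (co none j r : ℝ) * ds (k - j) (r - r) =
      (co none k r : ℝ) := by
    rw [sum_eq_single k]
    · rw [Nat.sub_self, Nat.sub_self, ds_zero_zero]
      simp
    · intro j hj hjk
      rw [mem_range] at hj
      rw [Nat.sub_self, ds_zero_pos hCXN (k - j) (by omega), mul_zero]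
    · intro h
      exact absurd (mem_range.2 (Nat.lt_succ_self k)) h
  rw [h3, h4] at h1
  linarith

theorem AS_add {f h : ℕ → ℝ} {r : ℕ} {α β : ℝ} (hf : AS f r α) (hh : AS h r β) :
    AS (fun k => f k + h k) r (α + β) := by
  unfold AS at *
  have h1 := hf.add hh
  rw [← add_div] at h1
  exact h1.congr fun k => by rw [← add_div]

theorem AS_neg {f : ℕ → ℝ} {r : ℕ} {α : ℝ} (hf : AS f r α) : AS (fun k => - f k) r (-α) := by
  unfold AS at *
  have h1 := hf.neg
  rw [← neg_div] at h1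
  exact h1.congr fun k => by rw [← neg_div]

theorem AS_zero (r : ℕ) : AS (fun _ => 0) r 0 := by
  unfold AS
  simp only [zero_div]
  exact tendsto_const_nhds

theorem AS_sum {r : ℕ} (s : Finset ℕ) (f : ℕ → ℕ → ℝ) (α : ℕ → ℝ)
    (h : ∀ i ∈ s, AS (f i) r (α i)) : AS (fun k => ∑ i ∈ s, f i k) r (∑ i ∈ s, α i) := by
  classical
  induction s using Finset.induction_on with
  | empty => simpa using AS_zero r
  | insert a s ha ih =>
    have h1 := AS_add (h a (mem_insert_self a s)) (ih fun i hi => h i (mem_insert_of_mem hi))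
    simp only [sum_insert ha]
    exact h1

theorem goalDAS (hINV : StmtINV) (hEEQ : StmtEEQ) (hCXN : StmtCXN) (hCNV : StmtCNV)
    (hCAS : StmtCAS) : StmtDAS := by
  intro r
  induction r using Nat.strong_induction_on with
  | _ r ih =>
    intro hr
    have h1 : ∀ i ∈ Ico 1 r, AS (fun k => ∑ m ∈ range (k + 1),
        (k.choose m : ℝ) * (co none m i : ℝ) * ds (k - m) (r - i)) r (ee i * dd (r - i)) := by
      intro i hi
      rw [mem_Ico] at hi
      have h2 := hCAS none i hi.1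
      rw [hEEQ.1] at h2
      have h3 := ih (r - i) (by omega) (by omega)
      have h4 := hCNV i (r - i) (fun k => (co none k i : ℝ)) (fun k => ds k (r - i)) (ee i)
        (dd (r - i)) hi.1 (by omega) h2 h3
      have h5 : i + (r - i) = r := by omega
      rw [h5] at h4
      exact h4
    have h2 := hCAS none r hr
    rw [hEEQ.1] at h2
    have h3 := AS_add (AS_neg h2) (AS_neg (AS_sum (Ico 1 r) _ _ h1))
    rw [← sub_eq_add_neg, ← dd_rec hEEQ r hr] at h3
    have h4 : (fun k => ds k r) = fun k => - (co none k r : ℝ) + - ∑ i ∈ Ico 1 r,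
        ∑ m ∈ range (k + 1), (k.choose m : ℝ) * (co none m i : ℝ) * ds (k - m) (r - i) := by
      funext k
      rw [ds_rec hINV hCXN k r hr, sub_eq_add_neg]
    rw [h4]
    exact h3

end Pool.Agent.Helper50.AL
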